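import Mathlib

namespace Pool.Agent.H.MP_1d2ce7_al

open FreeGroup

variable {α : Type} [DecidableEq α]

def cone (W : List (α × Bool)) : Set (FreeGroup α) := {g | W <:+ g.toWord}

theorem tw {L : List (α × Bool)} (h : IsReduced L) : (mk L).toWord = L := by
  rw [toWord_mk, h.reduce_eq]

omit [DecidableEq α] in
theorem sub {L M : List (α × Bool)} (h : IsReduced M) (h' : L <:+: M) : IsReduced L := by
  obtain ⟨s, t, rfl⟩ := h'
  exact (List.isChain_append.1 (List.isChain_append.1 h).1).2.1

theorem tw_lt (t : α × Bool) (g : FreeGroup α) : (mk [t] * g).toWord = t :: g.toWord ∨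
    g.toWord = (t.1, !t.2) :: (mk [t] * g).toWord := by
  have : (mk [t] * g).toWord = reduce (t :: g.toWord) := by
    conv_lhs => rw [← mk_toWord (x := g), mul_mk, toWord_mk]
    rfl
  rw [this, reduce.cons, reduce_toWord]
  rcases g.toWord with _ | ⟨hd, tl⟩
  · exact Or.inl rfl
  · by_cases h : t.1 = hd.1 ∧ t.2 = !hd.2
    · right
      simp only [h, and_self, if_true]
      simp
    · left
      simp only [h, if_false]

theorem step {W : List (α × Bool)} {g : FreeGroup α} (t : α × Bool) (h : g ∈ cone W)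
    (h' : g.toWord ≠ W) : mk [t] * g ∈ cone W := by
  rcases tw_lt t g with e | e
  · show W <:+ _
    rw [e]; exact List.IsSuffix.trans h (List.suffix_cons _ _)
  · have : W <:+ g.toWord := h
    rw [e] at this h'
    exact (List.suffix_cons_iff.1 this).resolve_left (Ne.symm h')

theorem mono {a : α} {g : FreeGroup α} (h : g ∈ cone [(a, true)]) :
    ∀ L : List (α × Bool), (a, false) ∉ L → mk L * g ∈ cone [(a, true)]
  | [], _ => by rw [← one_eq_mk, one_mul]; exact h
  | t :: L, hL => by
    have ih := mono h L fun e => hL (List.mem_cons_of_mem _ e)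
    rw [show mk (t :: L) = mk [t] * mk L from by rw [mul_mk]; rfl, mul_assoc]
    by_cases e : (mk L * g).toWord = [(a, true)]
    · rcases tw_lt t (mk L * g) with e' | e'
      · show _ <:+ _
        rw [e', e]; exact List.suffix_cons _ _
      · rw [e] at e'
        have := (List.cons.inj e').1
        refine absurd ?_ hL
        obtain ⟨t1, t2⟩ := t
        simp only [Prod.mk.injEq] at this
        obtain ⟨rfl, h2⟩ := this
        cases t2 <;> simp at h2 ⊢
    · exact step t ih e

theorem inv_lt (t : α × Bool) : mk [(t.1, !t.2)] * mk [t] = (1 : FreeGroup α) := by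
  rw [← inv_mul_cancel (mk [t]), inv_mk]; rfl

theorem bad (W : List (α × Bool)) : ∀ L : List (α × Bool),
    {g : FreeGroup α | ¬ (g ∈ cone W ↔ mk L * g ∈ cone W)}.Finite
  | [] => by simp [← one_eq_mk]
  | t :: L => by
    have h1 : {g : FreeGroup α | ¬ (g ∈ cone W ↔ mk [t] * g ∈ cone W)}.Finite := by
      refine (Set.toFinite {mk W, (mk [t])⁻¹ * mk W}).subset fun g hg => ?_
      by_contra hc
      simp only [Set.mem_insert_iff, Set.mem_singleton_iff, not_or] at hc
      refine hg ⟨fun e => step t e fun e' => hc.1 (by rw [← e', mk_toWord]), fun e => ?_⟩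
      have := step (t.1, !t.2) e fun e' => hc.2 (by rw [← e', mk_toWord, inv_mul_cancel_left])
      rwa [← mul_assoc, inv_lt, one_mul] at this
    refine ((bad W L).union (h1.preimage (mul_right_injective (mk L)).injOn)).subset fun g hg => ?_
    rw [Set.mem_ofPred_eq, show mk (t :: L) = mk [t] * mk L from by rw [mul_mk]; rfl,
      mul_assoc] at hg
    simp only [Set.mem_union, Set.mem_ofPred_eq, Set.mem_preimage]
    tauto

theorem split [Finite α] (P : Set (FreeGroup α)) (h1 : P.Infinite) (h2 : Pᶜ.Infinite)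
    (hb : ∀ t : α × Bool, {g | ¬ (g ∈ P ↔ mk [t] * g ∈ P)}.Finite) :
    ∃ W x y, x ≠ y ∧ IsReduced (x :: W) ∧ IsReduced (y :: W) ∧
      (cone (x :: W) ∩ Pᶜ).Finite ∧ (cone (y :: W) ∩ P).Finite := by
  classical
  obtain ⟨R, hR⟩ := ((Set.finite_iUnion hb).image fun g => g.toWord.length).bddAbove
  have far : ∀ W : List (α × Bool), R < W.length → ∀ V g, g.toWord = V ++ W →
      (g ∈ P ↔ mk W ∈ P) := by
    intro W hW V
    induction V with
    | nil => intro g e; rw [← List.nil_append W, ← e, mk_toWord]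
    | cons t V ih =>
      intro g e
      have r : IsReduced (V ++ W) := sub (isReduced_toWord (x := g))
        (by rw [e]; exact (List.suffix_cons _ _).isInfix)
      have e2 : g = mk [t] * mk (V ++ W) := by rw [mul_mk, ← mk_toWord (x := g), e]; rfl
      rw [← ih _ (tw r), e2]
      by_contra hc
      have := hR ⟨mk (V ++ W), Set.mem_iUnion.2 ⟨t, fun e => hc e.symm⟩, rfl⟩
      simp only [tw r, List.length_append] at this
      omega
  let N : ℕ → Prop := fun n => ∃ W : List (α × Bool), W.length = n ∧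
    (cone W ∩ P).Infinite ∧ (cone W ∩ Pᶜ).Infinite
  have n0 : N 0 := ⟨[], rfl, by simpa [cone] using h1, by simpa [cone] using h2⟩
  obtain ⟨W, w1, w2, w3⟩ : N (Nat.findGreatest N R) := Nat.findGreatest_spec (Nat.zero_le R) n0
  have mx : ∀ t, (cone (t :: W) ∩ P).Infinite → (cone (t :: W) ∩ Pᶜ).Infinite → False := by
    intro t a b
    by_cases c : R < (t :: W).length
    · obtain ⟨g, ⟨V, e⟩, g1⟩ := a.nonempty
      obtain ⟨g', ⟨V', e'⟩, g2⟩ := b.nonempty
      exact g2 ((far _ c V' g' e'.symm).2 ((far _ c V g e.symm).1 g1))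
    · have := Nat.le_findGreatest (P := N) (not_lt.1 c) ⟨t :: W, rfl, a, b⟩
      simp only [List.length_cons] at this
      omega
  have ch : ∀ Q : Set (FreeGroup α), (cone W ∩ Q).Infinite →
      ∃ t, (cone (t :: W) ∩ Q).Infinite := by
    intro Q hQ
    by_contra hc
    push Not at hc
    refine hQ (((Set.finite_iUnion hc).insert (mk W)).subset ?_)
    rintro g ⟨⟨V, e⟩, g2⟩
    rcases V.eq_nil_or_concat with rfl | ⟨V', t, rfl⟩
    · left; rw [← mk_toWord (x := g), ← e]; rfl
    · exact Or.inr (Set.mem_iUnion.2 ⟨t, ⟨V', by rw [← e]; simp⟩, g2⟩)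
  obtain ⟨x, hx⟩ := ch P w2
  obtain ⟨y, hy⟩ := ch Pᶜ w3
  refine ⟨W, x, y, fun e => mx x hx (e ▸ hy), ?_, ?_, Set.not_infinite.1 (mx x hx),
    Set.not_infinite.1 fun e => mx y e hy⟩
  · obtain ⟨g, g1, -⟩ := hx.nonempty
    exact sub isReduced_toWord (List.IsSuffix.isInfix g1)
  · obtain ⟨g, g1, -⟩ := hy.nonempty
    exact sub isReduced_toWord (List.IsSuffix.isInfix g1)

theorem red_inv {L : List (α × Bool)} (h : IsReduced L) : IsReduced (invRev L) :=
  IsReduced.of_reduce_eq (by rw [reduce_invRev, h.reduce_eq])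

theorem esc {S Q : Set (FreeGroup α)} (h : (S ∩ Q).Finite) (f : ℕ → FreeGroup α)
    (hf : ∀ n, f n ∈ S) (hl : ∀ n, n ≤ (f n).toWord.length) : ∃ n, f n ∉ Q := by
  obtain ⟨R, hR⟩ := (h.image fun g => g.toWord.length).bddAbove
  refine ⟨R + 1, fun e => ?_⟩
  have := hR ⟨_, ⟨hf _, e⟩, rfl⟩
  have := hl (R + 1)
  simp only at *
  omega

theorem block [Finite α] (φ : MulAut (FreeGroup α)) (v : FreeGroup α) (a : α)
    (hv : (a, false) ∉ v.toWord) (hc : IsCyclicallyReduced (φ v).toWord) :
    ∃ s t : α × Bool, IsReduced [s, t] ∧ ¬ [s, t] <:+: (φ v).toWord := by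
  obtain ⟨W, x, y, hxy, rx, ry, fx, fy⟩ := split (φ.symm ⁻¹' cone [(a, true)])
    (Set.Infinite.preimage (Set.infinite_of_injective_forall_mem (f := fun n : ℕ => of a ^ (n + 1))
      (fun n m e => by simpa using congrArg FreeGroup.norm e) fun n => by
        show _ <:+ _
        rw [toWord_of_pow, List.replicate_succ']; exact List.suffix_append _ _)
      (by rw [φ.symm.surjective.range_eq]; exact Set.subset_univ _))
    (Set.Infinite.preimage (s := (cone [(a, true)])ᶜ) (Set.infinite_of_injective_forall_mem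
      (f := fun n : ℕ => (of a ^ n)⁻¹)
      (fun n m e => by simpa using congrArg FreeGroup.norm e) fun n e => by
        have : (a, true) ∈ ((of a ^ n)⁻¹).toWord := List.IsSuffix.subset e (by simp)
        simp [toWord_inv, invRev] at this)
      (by rw [φ.symm.surjective.range_eq]; exact Set.subset_univ _))
    (fun t => by
      have := (bad [(a, true)] (φ.symm (mk [t])).toWord).preimage φ.symm.injective.injOn
      simpa [mk_toWord] using this)
  refine ⟨y, (x.1, !x.2), ?_, ?_⟩
  · rw [isReduced_cons_cons]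
    refine ⟨fun e => ?_, IsReduced.singleton⟩
    obtain ⟨x1, x2⟩ := x
    obtain ⟨y1, y2⟩ := y
    simp only at e
    subst e
    cases x2 <;> cases y2 <;> simp at hxy ⊢
  rintro ⟨c1, c2, e⟩
  obtain ⟨w, hw⟩ : ∃ w, w = φ v := ⟨_, rfl⟩
  rw [← hw] at e hc
  let Z : ℕ → List (α × Bool) := fun n => (List.replicate n w.toWord).flatten
  have z1 : ∀ n, mk (Z n) = w ^ n := fun n => by rw [← pow_mk, mk_toWord]
  have z2 : ∀ n, n ≤ (Z n).length := fun n => by
    simp only [Z, List.length_flatten, List.map_replicate, List.sum_replicate, smul_eq_mul, ← e]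
    exact Nat.le_mul_of_pos_right _ (by simp)
  have r1 : ∀ n, IsReduced (Z n ++ c1 ++ [y] ++ W) := fun n => by
    refine IsReduced.append_overlap (sub (hc.flatten_replicate (n + 1)).isReduced
      (List.IsPrefix.isInfix ⟨(x.1, !x.2) :: c2, ?_⟩)) ry (by simp)
    rw [List.replicate_succ', List.flatten_append, ← e]; simp [Z, ← e]
  have r2 : ∀ n, IsReduced (invRev (c2 ++ Z n) ++ [x] ++ W) := fun n => by
    refine IsReduced.append_overlap ?_ rx (by simp)
    have : IsReduced ([(x.1, !x.2)] ++ (c2 ++ Z n)) :=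
      sub (hc.flatten_replicate (n + 1)).isReduced (List.IsSuffix.isInfix ⟨c1 ++ [y], by
        rw [List.replicate_succ, List.flatten_cons, ← e]; simp [Z, ← e]⟩)
    have := red_inv this
    rw [invRev_append] at this
    simpa [invRev] using this
  obtain ⟨n, hn⟩ := esc fx (fun n => mk (invRev (c2 ++ Z n) ++ [x] ++ W))
    (fun n => by show _ <:+ _; rw [tw (r2 n)]; exact ⟨invRev (c2 ++ Z n), by simp⟩)
    (fun n => by rw [tw (r2 n)]; have := z2 n; simp; omega)
  obtain ⟨m, hm⟩ := esc fy (fun n => mk (Z n ++ c1 ++ [y] ++ W))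
    (fun n => by show _ <:+ _; rw [tw (r1 n)]; exact ⟨Z n ++ c1, by simp⟩)
    (fun n => by rw [tw (r1 n)]; have := z2 n; simp; omega)
  apply hm
  have key : mk (Z m ++ c1 ++ [y] ++ W) =
      w ^ (m + 1 + n) * mk (invRev (c2 ++ Z n) ++ [x] ++ W) := by
    have ew : w = mk c1 * (mk [y] * (mk [x])⁻¹) * mk c2 := by
      rw [inv_mk, mul_mk, mul_mk, mul_mk, ← mk_toWord (x := w), ← e]; rfl
    simp only [← mul_mk, ← inv_mk, z1, pow_add, pow_one]
    conv_rhs => enter [1, 1, 2]; rw [ew]
    group
  have := mono (not_not.1 hn) (List.replicate (m + 1 + n) v.toWord).flatten (by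
    simp only [List.mem_flatten, List.mem_replicate]
    rintro ⟨l, ⟨-, rfl⟩, g⟩
    exact hv g)
  rw [← pow_mk, mk_toWord] at this
  rw [Set.mem_preimage, key, MulEquiv.map_mul, hw, ← map_pow, MulEquiv.symm_apply_apply]
  exact this

theorem join {r : ℕ} (hr : 3 ≤ r) {L M : List (Fin r × Bool)} (h : IsReduced L)
    (h' : IsReduced M) : ∃ t, IsReduced (L ++ t :: M) := by
  obtain ⟨i, hi⟩ : ∃ i : Fin r, (∀ a ∈ L.getLast?, a.1 ≠ i) ∧ ∀ a ∈ M.head?, a.1 ≠ i := by
    obtain ⟨i, hi⟩ : ∃ i : Fin r, i ∉ ({(L.getLast?.map Prod.fst).getD ⟨0, by omega⟩,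
        (M.head?.map Prod.fst).getD ⟨0, by omega⟩} : Finset (Fin r)) := by
      refine (Finset.exists_mem_notMem_of_card_lt_card (t := Finset.univ) ?_).imp fun _ g => g.2
      exact lt_of_le_of_lt Finset.card_le_two (by simp; omega)
    simp only [Finset.mem_insert, Finset.mem_singleton, not_or] at hi
    refine ⟨i, fun a ha e => hi.1 ?_, fun a ha e => hi.2 ?_⟩
    · rw [Option.mem_def.1 ha]; exact e.symm
    · rw [Option.mem_def.1 ha]; exact e.symm
  refine ⟨(i, true), List.IsChain.append h (List.IsChain.cons h' fun a ha e =>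
    absurd e.symm (hi.2 a ha)) fun a ha b hb e => ?_⟩
  obtain rfl : (i, true) = b := by simpa using hb
  exact absurd e (hi.1 a ha)

theorem allp {r : ℕ} (hr : 3 ≤ r) : ∃ L : List (Fin r × Bool), IsReduced L ∧
    ∀ s t, IsReduced [s, t] → [s, t] <:+: L := by
  have : ∀ T : List ((Fin r × Bool) × (Fin r × Bool)), ∃ L : List (Fin r × Bool), IsReduced L ∧
      ∀ p ∈ T, IsReduced [p.1, p.2] → [p.1, p.2] <:+: L := by
    intro T
    induction T with
    | nil => exact ⟨[], IsReduced.nil, by simp⟩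
    | cons p T ih =>
      obtain ⟨L, h1, h2⟩ := ih
      by_cases c : IsReduced [p.1, p.2]
      · obtain ⟨t, ht⟩ := join hr c h1
        refine ⟨_, ht, fun q hq g => ?_⟩
        rcases List.mem_cons.1 hq with rfl | hq
        · exact (List.prefix_append _ _).isInfix
        · exact (h2 q hq g).trans
            ((List.suffix_cons _ _).trans (List.suffix_append _ _)).isInfix
      · refine ⟨L, h1, fun q hq g => ?_⟩
        rcases List.mem_cons.1 hq with rfl | hq
        · exact absurd g c
        · exact h2 q hq g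
  obtain ⟨L, h1, h2⟩ := this Finset.univ.toList
  exact ⟨L, h1, fun s t => h2 (s, t) (by simp)⟩

end Pool.Agent.H.MP_1d2ce7_al
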